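import Pool.Agent.H7.LP.Targets3

/-!
# Board lpq_modules, row BCQ: codes are Borel
-/

set_option autoImplicit false

open Set Filter Topology

namespace Pool.Agent.H36.LQ

open Pool.Agent.H93.CP Pool.Agent.H7.LP Pool.Agent.H7.LQ

/-- Codes, with a countable family of conditions. -/
theorem bcq_iff (h1 : T_LBT) (h5 : T_NCO) {G X : Type} [Group G] [TopologicalSpace G]
    [IsTopologicalGroup G] [PolishSpace G] [MeasurableSpace G] [MeasurableSpace X] (B : Bs G)
    (L : LPD G) {M : Subgroup G} [MulAction M X] (Y : Hit M X) (S : Canon L Y) (x : X)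
    (e : ℕ → ℕ × ℕ × G) :
    IsCd B S x e ↔ (∀ i, ∃ k m : ℕ, ((e i).1 = k ∧ (e i).2.1 = m) ∧
        (S.Can k (lb L Y k x (e i).2.2) ∧ Tight (L.R k) (KX B L Y k m x (e i).2.2))) ∧
      ∀ k m n : ℕ, Tight (L.R k) (KX B L Y k m x (S.nu k n x)) → ∀ N : ℕ, ∃ i : ℕ, N ≤ i ∧
        ((e i).1 = k ∧ (e i).2.1 = m) ∧
        S.nu k n x * ((e i).2.2)⁻¹ ∈ KX B L Y k m x (e i).2.2 := by
  constructor
  · intro h
    refine ⟨fun i => ⟨(e i).1, (e i).2.1, ⟨rfl, rfl⟩, h.node i⟩, ?_⟩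
    intro k m n ht N
    obtain ⟨i, hi, h2, h3, h4⟩ := h.all k m (S.nu k n x) ⟨S.can k n x, ht⟩ N
    exact ⟨i, hi, ⟨h2, h3⟩, h4⟩
  · rintro ⟨ha, hb⟩
    refine ⟨?_, ?_⟩
    · intro i
      obtain ⟨k, m, ⟨rfl, rfl⟩, h⟩ := ha i
      exact h
    · intro k m g hg N
      have hO : {ν : G | g * ν⁻¹ ∈ B.N m ∧ g * ν⁻¹ ∈ L.H k} ∈ 𝓝 g := by
        have hc : Continuous fun ν : G => g * ν⁻¹ := by fun_prop
        have ho : IsOpen {ν : G | g * ν⁻¹ ∈ B.N m ∧ g * ν⁻¹ ∈ L.H k} :=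
          IsOpen.inter ((B.nopn m).preimage hc) ((L.piece k).op.preimage hc)
        refine ho.mem_nhds ⟨?_, ?_⟩
        · rw [mul_inv_cancel]
          exact B.none m
        · rw [mul_inv_cancel]
          exact (L.H k).one_mem
      obtain ⟨n, ⟨hn1, hn2⟩, hn3⟩ := S.all k x g hg.1 _ hO
      have hK : KX B L Y k m x (S.nu k n x) = KX B L Y k m x g := by
        unfold KX
        rw [hn3]
      have ht : Tight (L.R k) (KX B L Y k m x (S.nu k n x)) := by
        rw [hK]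
        exact hg.2
      obtain ⟨i, hi, ⟨h2, h3⟩, h4⟩ := hb k m n ht N
      refine ⟨i, hi, h2, h3, ?_⟩
      have hK' := (h5 G X B L M Y S k m x (e i).2.2 _ h4).2.1
      rw [inv_mul_cancel_right] at hK'
      have hs : g * (S.nu k n x)⁻¹ ∈ KX B L Y k m x (S.nu k n x) := by
        refine Subgroup.subset_closure ⟨⟨hn2, ?_⟩, 1, (L.R k).one_mem, ?_⟩
        · have h6 := (h1 G X L M Y k x (S.nu k n x)).2.2.1 _ hn2
          rw [inv_mul_cancel_right] at h6
          rw [← h6, hn3]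
        · rw [mul_one]
          exact hn1
      rw [hK'] at hs
      have h7 := (KX B L Y k m x (e i).2.2).mul_mem hs h4
      rwa [← mul_assoc, inv_mul_cancel_right] at h7

/-- **Row BCQ.** -/
theorem pf_BCQ (h1 : T_LBT) (h2 : T_KKA) (h3 : T_BTG) (h4 : T_BKX) (h5 : T_NCO) : T_BCQ := by
  intro G X _ _ _ _ _ _ _ _ B L M _ Y S
  have _ := h2
  have e : {p : X × (ℕ → ℕ × ℕ × G) | IsCd B S p.1 p.2} = {p : X × (ℕ → ℕ × ℕ × G) |
      (∀ i, ∃ k m : ℕ, ((p.2 i).1 = k ∧ (p.2 i).2.1 = m) ∧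
        (S.Can k (lb L Y k p.1 (p.2 i).2.2) ∧
          Tight (L.R k) (KX B L Y k m p.1 (p.2 i).2.2))) ∧
      ∀ k m n : ℕ, Tight (L.R k) (KX B L Y k m p.1 (S.nu k n p.1)) → ∀ N : ℕ, ∃ i : ℕ, N ≤ i ∧
        ((p.2 i).1 = k ∧ (p.2 i).2.1 = m) ∧
        S.nu k n p.1 * ((p.2 i).2.2)⁻¹ ∈ KX B L Y k m p.1 (p.2 i).2.2} := by
    ext p
    exact bcq_iff h1 h5 B L Y S p.1 p.2
  have m1 : ∀ i, Measurable fun p : X × (ℕ → ℕ × ℕ × G) => p.2 i := fun i =>
    (measurable_pi_apply i).comp measurable_snd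
  have m2 : ∀ i, Measurable fun p : X × (ℕ → ℕ × ℕ × G) => (p.2 i).1 := fun i =>
    measurable_fst.comp (m1 i)
  have m3 : ∀ i, Measurable fun p : X × (ℕ → ℕ × ℕ × G) => (p.2 i).2.1 := fun i =>
    (measurable_fst.comp measurable_snd).comp (m1 i)
  have m4 : ∀ i, Measurable fun p : X × (ℕ → ℕ × ℕ × G) => (p.2 i).2.2 := fun i =>
    (measurable_snd.comp measurable_snd).comp (m1 i)
  have m5 : ∀ i, Measurable fun p : X × (ℕ → ℕ × ℕ × G) => (p.1, (p.2 i).2.2) := fun i =>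
    measurable_fst.prodMk (m4 i)
  have m6 : ∀ k n, Measurable fun p : X × (ℕ → ℕ × ℕ × G) => S.nu k n p.1 := fun k n =>
    (S.meas k n).comp measurable_fst
  have q1 : ∀ i k m, Measurable fun p : X × (ℕ → ℕ × ℕ × G) =>
      ((p.2 i).1 = k ∧ (p.2 i).2.1 = m) := by
    intro i k m
    refine Measurable.and ?_ ?_
    · exact measurableSet_setOfPred.1 (m2 i (measurableSet_singleton k))
    · exact measurableSet_setOfPred.1 (m3 i (measurableSet_singleton m))
  rw [e, measurableSet_setOfPred]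
  refine Measurable.and (Measurable.forall fun i => Measurable.exists fun k =>
    Measurable.exists fun m => ?_) (Measurable.forall fun k => Measurable.forall fun m =>
      Measurable.forall fun n => Measurable.imp ?_ (Measurable.forall fun N =>
        Measurable.exists fun i => ?_))
  · refine Measurable.and (q1 i k m) (Measurable.and ?_ ?_)
    · exact measurableSet_setOfPred.1 (m5 i (S.bor k))
    · exact measurableSet_setOfPred.1 (m5 i (h3 G X B L M Y k m))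
  · exact measurableSet_setOfPred.1 ((measurable_fst.prodMk (m6 k n)) (h3 G X B L M Y k m))
  · refine Measurable.and measurable_const (Measurable.and (q1 i k m) ?_)
    have m7 : Measurable fun p : X × (ℕ → ℕ × ℕ × G) =>
        ((p.1, (p.2 i).2.2), S.nu k n p.1 * ((p.2 i).2.2)⁻¹) :=
      (m5 i).prodMk ((m6 k n).mul (m4 i).inv)
    exact measurableSet_setOfPred.1 (m7 (h4 G X B L M Y k m))

end Pool.Agent.H36.LQ
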