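import Pool.Agent.H7.LP.Targets3

/-!
Structures as countably many binary relations (row ENC of the board lpq).
-/

set_option autoImplicit false

open Set Filter Topology

namespace Pool.Agent.H36.LQ

open Pool.Agent.H93.CP Pool.Agent.H7.LP Pool.Agent.H7.LQ

/-- the names of the relations -/
private abbrev Nm : Type := ℕ ⊕ ℕ ⊕ (ℕ × ℕ) ⊕ Unit ⊕ ℕ

/-- the value of a relation -/
private def Qv (t : Option Nm) (e : Bool) (a : ℕ × ℕ × (ℕ × ℕ → Bool)) (b : Bool × (ℕ → Bool)) :
    Bool :=
  match t with
  | none => false
  | some (Sum.inl n) => e && decide (a.1 = n)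
  | some (Sum.inr (Sum.inl n)) => e && decide (a.2.1 = n)
  | some (Sum.inr (Sum.inr (Sum.inl q))) => e && a.2.2 q
  | some (Sum.inr (Sum.inr (Sum.inr (Sum.inl _)))) => b.1
  | some (Sum.inr (Sum.inr (Sum.inr (Sum.inr p)))) => b.2 p

private lemma Qv_fst {a a' : ℕ × ℕ × (ℕ × ℕ → Bool)} {b b' : Bool × (ℕ → Bool)}
    (h : ∀ t : Nm, Qv (some t) true a b = Qv (some t) true a' b') : a = a' := by
  obtain ⟨a1, a2, a3⟩ := a
  obtain ⟨a1', a2', a3'⟩ := a'
  have e1 : a1 = a1' := by
    have := h (Sum.inl a1')
    simp only [Qv, Bool.true_and, decide_true] at this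
    exact of_decide_eq_true this
  have e2 : a2 = a2' := by
    have := h (Sum.inr (Sum.inl a2'))
    simp only [Qv, Bool.true_and, decide_true] at this
    exact of_decide_eq_true this
  have e3 : a3 = a3' := by
    funext q
    have := h (Sum.inr (Sum.inr (Sum.inl q)))
    simp only [Qv, Bool.true_and] at this
    exact this
  rw [e1, e2, e3]

private lemma Qv_snd {e : Bool} {a a' : ℕ × ℕ × (ℕ × ℕ → Bool)} {b b' : Bool × (ℕ → Bool)}
    (h : ∀ t : Nm, Qv (some t) e a b = Qv (some t) e a' b') : b = b' := by
  obtain ⟨b1, b2⟩ := b
  obtain ⟨b1', b2'⟩ := b'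
  have e1 : b1 = b1' := h (Sum.inr (Sum.inr (Sum.inr (Sum.inl ()))))
  have e2 : b2 = b2' := by
    funext p
    exact h (Sum.inr (Sum.inr (Sum.inr (Sum.inr p))))
  rw [e1, e2]

/-- the relations of a structure -/
private def th (w : St2) : Rel := fun i j n =>
  Qv (Encodable.decode n) (decide (i = j)) (w.1 i) (w.2 i j)

private lemma th_some {w w' : St2} {i j i' j' : ℕ}
    (h : ∀ n, th w i j n = th w' i' j' n) (t : Nm) :
    Qv (some t) (decide (i = j)) (w.1 i) (w.2 i j) =
      Qv (some t) (decide (i' = j')) (w'.1 i') (w'.2 i' j') := by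
  have := h (Encodable.encode t)
  unfold th at this
  rw [Encodable.encodek] at this
  exact this

theorem pf_ENC : T_ENC := by
  refine ⟨th, ?_, ?_, ?_, ?_⟩
  · refine measurable_pi_lambda _ fun i => measurable_pi_lambda _ fun j =>
      measurable_pi_lambda _ fun n => ?_
    have m1 : Measurable fun w : St2 => w.1 i := (measurable_pi_apply i).comp measurable_fst
    have m2 : Measurable fun w : St2 => w.2 i j :=
      (measurable_pi_apply j).comp ((measurable_pi_apply i).comp measurable_snd)
    unfold th
    rcases Encodable.decode (α := Nm) n with _ | (k | k | k | k | k)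
    · exact measurable_const
    · exact (measurable_of_countable (fun k' : ℕ => decide (i = j) && decide (k' = k))).comp
        (measurable_fst.comp m1)
    · exact (measurable_of_countable (fun k' : ℕ => decide (i = j) && decide (k' = k))).comp
        (measurable_fst.comp (measurable_snd.comp m1))
    · exact (measurable_of_countable (fun k' : Bool => decide (i = j) && k')).comp
        ((measurable_pi_apply k).comp (measurable_snd.comp (measurable_snd.comp m1)))
    · exact measurable_fst.comp m2
    · exact (measurable_pi_apply k).comp (measurable_snd.comp m2)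
  · intro w w' h
    have h' : ∀ i j n, th w i j n = th w' i j n := fun i j n => by rw [h]
    refine Prod.ext ?_ ?_
    · funext i
      refine Qv_fst (b := w.2 i i) (b' := w'.2 i i) fun t => ?_
      have := th_some (h' i i) t
      rw [decide_eq_true (rfl : i = i)] at this
      exact this
    · funext i j
      exact Qv_snd (th_some (h' i j))
  · intro w w'
    constructor
    · rintro ⟨π, p1, p2⟩
      refine ⟨π, fun i j n => ?_⟩
      unfold th
      rw [p1, p2]
      have e : decide (π i = π j) = decide (i = j) := by
        rw [decide_eq_decide]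
        exact π.injective.eq_iff
      rw [e]
    · rintro ⟨π, hπ⟩
      refine ⟨π, fun i => ?_, fun i j => ?_⟩
      · refine Qv_fst (b := w'.2 i i) (b' := w.2 (π i) (π i)) fun t => ?_
        have := th_some (hπ i i) t
        rw [decide_eq_true (rfl : i = i), decide_eq_true (rfl : π i = π i)] at this
        exact this
      · have e : decide (π i = π j) = decide (i = j) := by
          rw [decide_eq_decide]
          exact π.injective.eq_iff
        refine Qv_snd (e := decide (i = j)) (a := w'.1 i) (a' := w.1 (π i)) fun t => ?_
        have := th_some (hπ i j) t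
        rw [e] at this
        exact this
  · rintro w v ⟨π, hπ⟩
    refine ⟨(fun i => w.1 (π i), fun i j => w.2 (π i) (π j)), ?_⟩
    funext i j n
    rw [hπ]
    unfold th
    have e : decide (π i = π j) = decide (i = j) := by
      rw [decide_eq_decide]
      exact π.injective.eq_iff
    rw [e]

end Pool.Agent.H36.LQ
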