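import Pool.Agent.H69.LQ.Lib

/-!
# LQ: row GP, the spectral gap for smooth functions
-/

set_option autoImplicit false

open MeasureTheory Metric Set
open scoped ENNReal
open Pool.Agent.H85.LK (E adm lam Ann)
open Pool.Agent.H69.LQ

namespace Pool.Agent.H36.LQ

lemma ev_contDiff {N : ℕ} (P : MvPolynomial (Fin N) ℝ) : ContDiff ℝ (⊤ : ℕ∞) (ev P) := by
  induction P using MvPolynomial.induction_on with
  | C a =>
    have : ev (MvPolynomial.C a : MvPolynomial (Fin N) ℝ) = fun _ => a := by
      funext x; simp [ev]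
    rw [this]
    exact contDiff_const
  | add p q hp hq =>
    have : ev (p + q) = fun x => ev p x + ev q x := by
      funext x; simp [ev]
    rw [this]
    exact hp.add hq
  | mul_X p i hp =>
    have : ev (p * MvPolynomial.X i) = fun x => ev p x * x i := by
      funext x; simp [ev]
    rw [this]
    exact hp.mul (by fun_prop)

lemma ev_sub' {N : ℕ} (P Q : MvPolynomial (Fin N) ℝ) (x : E N) : ev (P - Q) x = ev P x - ev Q x := by
  simp [ev]

lemma LL_cont {N : ℕ} {f : E N → ℝ} (hf : ContDiff ℝ (⊤ : ℕ∞) f) (i j : Fin N) :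
    Continuous (LL i j f) := by
  have h : Continuous (fderiv ℝ f) := hf.continuous_fderiv (by simp)
  unfold LL
  have h1 : ∀ k : Fin N, Continuous fun x : E N => fderiv ℝ f x (EuclideanSpace.single k 1) :=
    fun k => h.clm_apply continuous_const
  exact ((by fun_prop : Continuous fun x : E N => x i).mul (h1 j)).sub
    ((by fun_prop : Continuous fun x : E N => x j).mul (h1 i))

lemma BM_Gs {N : ℕ} {f : E N → ℝ} (hf : ContDiff ℝ (⊤ : ℕ∞) f) :
    BM fun θ : Sp N => Gs f (θ : E N) := by
  refine BM_cont ?_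
  unfold Gs
  refine continuous_const.mul (continuous_finset_sum _ fun i _ => continuous_finset_sum _
    fun j _ => ?_)
  exact ((LL_cont hf i j).comp continuous_subtype_val).pow 2

lemma BM_Gb {N : ℕ} {f g : E N → ℝ} (hf : ContDiff ℝ (⊤ : ℕ∞) f) (hg : ContDiff ℝ (⊤ : ℕ∞) g) :
    BM fun θ : Sp N => Gb f g (θ : E N) := by
  refine BM_cont ?_
  unfold Gb
  refine continuous_const.mul (continuous_finset_sum _ fun i _ => continuous_finset_sum _
    fun j _ => ?_)
  exact ((LL_cont hf i j).comp continuous_subtype_val).mul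
    ((LL_cont hg i j).comp continuous_subtype_val)

lemma BM_sm {N : ℕ} {f : E N → ℝ} (hf : ContDiff ℝ (⊤ : ℕ∞) f) :
    BM fun θ : Sp N => f (θ : E N) :=
  BM_cont (hf.continuous.comp continuous_subtype_val)

lemma Gs_add {N : ℕ} {f g : E N → ℝ} (hf : ContDiff ℝ (⊤ : ℕ∞) f) (hg : ContDiff ℝ (⊤ : ℕ∞) g)
    (x : E N) : Gs (fun y => f y + g y) x = Gs g x + 2 * Gb f g x + Gs f x := by
  have hdf : DifferentiableAt ℝ f x := (hf.differentiable (by simp)).differentiableAt
  have hdg : DifferentiableAt ℝ g x := (hg.differentiable (by simp)).differentiableAt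
  have h : ∀ i j, LL i j (fun y => f y + g y) x = LL i j f x + LL i j g x := by
    intro i j
    unfold LL
    rw [fderiv_fun_add hdf hdg]
    simp only [ContinuousLinearMap.add_apply]
    ring
  unfold Gs Gb
  simp only [h, Finset.mul_sum, ← Finset.sum_add_distrib]
  refine Finset.sum_congr rfl fun i _ => Finset.sum_congr rfl fun j _ => ?_
  ring

lemma Gs_nonneg {N : ℕ} (f : E N → ℝ) (x : E N) : 0 ≤ Gs f x := by
  unfold Gs
  positivity

theorem pf_GP (_hMP : T_MP) (hPR : T_PR) (hSW : T_SW) (hKP : T_KP) (hGF : T_GF) : T_GP := by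
  intro N d g hN hg horth
  have hN' : (2 : ℝ) ≤ N := by exact_mod_cast hN
  have hBg : BM fun θ : Sp N => g (θ : E N) := BM_sm hg
  have hK : 0 ≤ (d : ℝ) * (d + N - 2) := by
    have : (0 : ℝ) ≤ d := by positivity
    exact mul_nonneg this (by linarith)
  obtain ⟨K, hKd⟩ : ∃ K, K = (d : ℝ) * (d + N - 2) := ⟨_, rfl⟩
  rw [← hKd] at hK ⊢
  -- the main inequality with an error
  have key : ∀ ε : ℝ, 0 < ε → K * av (fun θ : Sp N => g (θ : E N) ^ 2) ≤
      av (fun θ : Sp N => Gs g (θ : E N)) + K * ε ^ 2 := by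
    intro ε hε
    obtain ⟨S, hS⟩ := hSW N (fun θ : Sp N => g (θ : E N)) ε hN
      (hg.continuous.comp continuous_subtype_val) hε
    obtain ⟨D, hD⟩ : ∃ D, D = max S.totalDegree d := ⟨_, rfl⟩
    obtain ⟨P, hPD, hP⟩ := hPR N D (fun θ : Sp N => g (θ : E N)) hN hBg
    have hPs := ev_contDiff P
    have hSs := ev_contDiff S
    have hfs : ContDiff ℝ (⊤ : ℕ∞) fun x => g x - ev P x := hg.sub hPs
    have hBP : BM fun θ : Sp N => ev P (θ : E N) := BM_sm hPs
    have hBS : BM fun θ : Sp N => ev S (θ : E N) := BM_sm hSs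
    have hBf : BM fun θ : Sp N => g (θ : E N) - ev P (θ : E N) := BM_sm hfs
    -- the cross term
    have hcross : av (fun θ : Sp N => Gb (fun x => g x - ev P x) (ev P) (θ : E N)) = 0 := by
      obtain ⟨Q', hQ'd, -, hQ'⟩ := hKP N D P hN hPD
      rw [hQ' _ hfs]
      have e : (fun θ : Sp N => (g (θ : E N) - ev P (θ : E N)) *
          ((D : ℝ) * (D + N - 2) * ev P (θ : E N) + ev Q' (θ : E N))) =
          fun θ : Sp N => (D : ℝ) * (D + N - 2) *
            ((g (θ : E N) - ev P (θ : E N)) * ev P (θ : E N)) +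
            (g (θ : E N) - ev P (θ : E N)) * ev Q' (θ : E N) := by
        funext θ; ring
      rw [e, av_add ((hBf.mul hBP).const_mul _) (hBf.mul (BM_sm (ev_contDiff Q'))),
        av_const_mul, hP P hPD, hP Q' (hQ'd.trans (Nat.sub_le _ _))]
      simp
    have hGs : av (fun θ : Sp N => Gs (ev P) (θ : E N)) ≤ av (fun θ : Sp N => Gs g (θ : E N)) := by
      have e : (fun θ : Sp N => Gs g (θ : E N)) = fun θ : Sp N =>
          Gs (ev P) (θ : E N) + 2 * Gb (fun x => g x - ev P x) (ev P) (θ : E N) +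
            Gs (fun x => g x - ev P x) (θ : E N) := by
        funext θ
        rw [← Gs_add hfs hPs]
        congr 1
        funext y
        ring
      rw [e, av_add ((BM_Gs hPs).add ((BM_Gb hfs hPs).const_mul _)) (BM_Gs hfs),
        av_add (BM_Gs hPs) ((BM_Gb hfs hPs).const_mul _), av_const_mul, hcross]
      have := av_nonneg (N := N) (F := fun θ => Gs (fun x => g x - ev P x) (θ : E N))
        fun θ => Gs_nonneg _ _
      linarith
    have hPo : K * av (fun θ : Sp N => ev P (θ : E N) ^ 2) ≤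
        av (fun θ : Sp N => Gs (ev P) (θ : E N)) := by
      rw [hKd]
      refine hGF N d P hN fun Q hQ => ?_
      have h1 := horth Q hQ
      have h2 := hP Q (hQ.le.trans (by rw [hD]; exact le_max_right _ _))
      have hBQ : BM fun θ : Sp N => ev Q (θ : E N) := BM_sm (ev_contDiff Q)
      have e : (fun θ : Sp N => ev P (θ : E N) * ev Q (θ : E N)) = fun θ : Sp N =>
          g (θ : E N) * ev Q (θ : E N) - (g (θ : E N) - ev P (θ : E N)) * ev Q (θ : E N) := by
        funext θ; ring
      rw [e, av_sub (hBg.mul hBQ) (hBf.mul hBQ), h1, h2, sub_zero]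
    have hsum : av (fun θ : Sp N => g (θ : E N) ^ 2) = av (fun θ : Sp N => ev P (θ : E N) ^ 2) +
        av (fun θ : Sp N => (g (θ : E N) - ev P (θ : E N)) ^ 2) := by
      have e : (fun θ : Sp N => g (θ : E N) ^ 2) = fun θ : Sp N => ev P (θ : E N) ^ 2 +
          2 * ((g (θ : E N) - ev P (θ : E N)) * ev P (θ : E N)) +
          (g (θ : E N) - ev P (θ : E N)) ^ 2 := by
        funext θ; ring
      rw [e, av_add ((hBP.pow 2).add ((hBf.mul hBP).const_mul _)) (hBf.pow 2),
        av_add (hBP.pow 2) ((hBf.mul hBP).const_mul _), av_const_mul, hP P hPD]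
      ring
    have hsmall : av (fun θ : Sp N => (g (θ : E N) - ev P (θ : E N)) ^ 2) ≤ ε ^ 2 := by
      have hBR : BM fun θ : Sp N => ev (P - S) (θ : E N) := BM_sm (ev_contDiff _)
      have hdeg : (P - S).totalDegree ≤ D :=
        (MvPolynomial.totalDegree_sub _ _).trans (max_le hPD (by rw [hD]; exact le_max_left _ _))
      have e : (fun θ : Sp N => (g (θ : E N) - ev S (θ : E N)) ^ 2) = fun θ : Sp N =>
          (g (θ : E N) - ev P (θ : E N)) ^ 2 +
          2 * ((g (θ : E N) - ev P (θ : E N)) * ev (P - S) (θ : E N)) +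
          ev (P - S) (θ : E N) ^ 2 := by
        funext θ
        rw [ev_sub']
        ring
      have h1 : av (fun θ : Sp N => (g (θ : E N) - ev S (θ : E N)) ^ 2) =
          av (fun θ : Sp N => (g (θ : E N) - ev P (θ : E N)) ^ 2) +
          av (fun θ : Sp N => ev (P - S) (θ : E N) ^ 2) := by
        rw [e, av_add ((hBf.pow 2).add ((hBf.mul hBR).const_mul _)) (hBR.pow 2),
          av_add (hBf.pow 2) ((hBf.mul hBR).const_mul _), av_const_mul, hP _ hdeg]
        ring
      have h2 : av (fun θ : Sp N => (g (θ : E N) - ev S (θ : E N)) ^ 2) ≤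
          av (fun _ : Sp N => ε ^ 2) := by
        refine av_mono ((hBg.sub hBS).pow 2) (BM_const _) fun θ => ?_
        have h3 := hS θ
        rw [← sq_abs]
        exact pow_le_pow_left₀ (abs_nonneg _) h3 2
      have h3 : av (fun _ : Sp N => ε ^ 2) ≤ ε ^ 2 := by
        have h4 : IsProbabilityMeasure (mS N) := (_hMP N hN).1
        unfold av
        simp
      have h4 := av_sq_nonneg (N := N) fun θ => ev (P - S) (θ : E N)
      linarith
    calc K * av (fun θ : Sp N => g (θ : E N) ^ 2) = K * av (fun θ : Sp N => ev P (θ : E N) ^ 2) +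
          K * av (fun θ : Sp N => (g (θ : E N) - ev P (θ : E N)) ^ 2) := by rw [hsum]; ring
      _ ≤ av (fun θ : Sp N => Gs g (θ : E N)) + K * ε ^ 2 :=
          add_le_add (hPo.trans hGs) (mul_le_mul_of_nonneg_left hsmall hK)
  refine le_of_forall_pos_le_add fun ε hε => ?_
  have hK1 : 0 < K + 1 := by linarith
  have h1 := key (Real.sqrt (ε / (K + 1))) (Real.sqrt_pos.2 (div_pos hε hK1))
  rw [Real.sq_sqrt (div_pos hε hK1).le] at h1
  refine h1.trans (add_le_add le_rfl ?_)
  rw [mul_div_assoc', div_le_iff₀ hK1]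
  nlinarith

end Pool.Agent.H36.LQ
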