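import Pool.Agent.H54.LQ.Targets

/-!
The groups generated by the small elements of a stabilizer (row KKA of the board lpq).
-/

set_option autoImplicit false

open Set Filter Topology

namespace Pool.Agent.H36.LQ

open Pool.Agent.H93.CP Pool.Agent.H7.LP Pool.Agent.H7.LQ Pool.Agent.H54.LQ

theorem pf_KKA (h1 : Pool.Agent.H7.LP.T_LAB) (h2 : Pool.Agent.H7.LP.T_OCL)
    (h3 : Pool.Agent.H7.LP.T_TGA) : T_KKA := by
  intro G _ _ _ _ B R H y hP hy hl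
  obtain ⟨_, _, _, _, h15, h16, _⟩ := h1 G
  have hRS : R ≤ Stb H y := by
    have h := h16 R H y hP
    rw [hl] at h
    exact h
  have hHc : IsClosed (H : Set G) := Subgroup.isClosed_of_isOpen H hP.op
  have hSc : IsClosed (Stb H y : Set G) := h15 H y hHc hy
  have hSH : Stb H y ≤ H := fun g hg => hg.1
  have a1 : ∀ m, R ≤ KK R H y (B.N m) := by
    intro m r hr
    refine Subgroup.subset_closure ⟨hRS hr, r⁻¹, R.inv_mem hr, ?_⟩
    rw [mul_inv_cancel]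
    exact B.none m
  have a2 : ∀ m, KK R H y (B.N m) ≤ Stb H y := by
    intro m
    unfold KK
    rw [Subgroup.closure_le]
    exact fun g hg => hg.1
  have a3 : ∀ m, ∀ g ∈ Stb H y, g ∈ B.N m → g ∈ KK R H y (B.N m) := by
    intro m g hg hgN
    refine Subgroup.subset_closure ⟨hg, 1, R.one_mem, ?_⟩
    rw [mul_one]
    exact hgN
  have hN : ∀ m, B.N m ∈ 𝓝 (1 : G) := fun m => (B.nopn m).mem_nhds (B.none m)
  have a4 : ∀ m, OpenIn (KK R H y (B.N m)) (Stb H y) := fun m => ⟨B.N m, hN m, a3 m⟩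
  have hanti : ∀ m m', m ≤ m' → B.N m' ⊆ B.N m := by
    intro m m' h
    have ha : Antitone B.N := antitone_nat_of_succ_le B.nant
    exact ha h
  have a5 : ∀ m m', m ≤ m' → KK R H y (B.N m') ≤ KK R H y (B.N m) := by
    intro m m' h
    refine Subgroup.closure_mono ?_
    rintro g ⟨hg, r, hr, hgr⟩
    exact ⟨hg, r, hr, hanti m m' h hgr⟩
  have a6 : ∀ O : Subgroup G, R ≤ O → O ≤ Stb H y → OpenIn O (Stb H y) →
      ∃ m, KK R H y (B.N m) ≤ O := by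
    rintro O hRO _ ⟨U, hU, hUO⟩
    obtain ⟨m, hm⟩ := B.nbas U hU
    refine ⟨m, ?_⟩
    unfold KK
    rw [Subgroup.closure_le]
    rintro h ⟨hh, r, hr, hhr⟩
    have e : h = h * r * r⁻¹ := by rw [mul_inv_cancel_right]
    rw [e]
    exact O.mul_mem (hUO _ ((Stb H y).mul_mem hh (hRS hr)) (hm hhr)) (O.inv_mem (hRO hr))
  refine ⟨fun m => ⟨a1 m, a2 m, a4 m, h2 G _ _ hSc (a2 m) (a4 m)⟩, a5, a6, ?_⟩
  obtain ⟨K, k1, k2, k3, k4⟩ := h3 G R H (Stb H y) (Stb H y) hP hSc hRS hSH hRS le_rfl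
    ⟨univ, univ_mem, fun g hg _ => hg⟩
  obtain ⟨m₀, hm₀⟩ := a6 K k1 k2 k3
  refine ⟨m₀, fun m hm => ?_⟩
  have hmK : KK R H y (B.N m) ≤ K := (a5 m₀ m hm).trans hm₀
  rintro K₁ hR1 hK1 ⟨U, hU, hUK⟩
  have ho : OpenIn K₁ K := by
    refine ⟨U ∩ B.N m, inter_mem hU (hN m), ?_⟩
    rintro g hg ⟨hgU, hgN⟩
    exact hUK g (a3 m g (k2 hg) hgN) hgU
  obtain ⟨F, hF, hFK⟩ := k4 K₁ hR1 (hK1.trans hmK) ho
  exact ⟨F, hF, fun g hg => hFK g (hmK hg)⟩

end Pool.Agent.H36.LQ
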