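import Pool.Agent.H69.LQ.Lib

/-!
# LQ: row PY, Pythagoras
-/

set_option autoImplicit false

open MeasureTheory Metric Set
open scoped ENNReal
open Pool.Agent.H85.LK (E adm lam Ann)
open Pool.Agent.H69.LQ

namespace Pool.Agent.H36.LQ

section

variable {N : ℕ}

lemma BM_c2 (j k : Fin N) : BM fun θ : Sp N => (θ : E N) j * (θ : E N) k :=
  (BM_coord j).mul (BM_coord k)

lemma BM_q1 (c : Fin N → ℝ) : BM fun θ : Sp N => ∑ j, c j * (θ : E N) j :=
  BM.sum _ fun j _ => (BM_coord j).const_mul _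

lemma BM_q2 (B : Fin N → Fin N → ℝ) :
    BM fun θ : Sp N => ∑ j, ∑ k, B j k * ((θ : E N) j * (θ : E N) k) :=
  BM.sum _ fun j _ => BM.sum _ fun k _ => (BM_c2 j k).const_mul _

lemma av_q1 {H : Sp N → ℝ} (hH : BM H) (c : Fin N → ℝ) :
    av (fun θ => H θ * ∑ j, c j * (θ : E N) j) = ∑ j, c j * av (fun θ => H θ * (θ : E N) j) := by
  have e : (fun θ : Sp N => H θ * ∑ j, c j * (θ : E N) j) =
      fun θ => ∑ j, c j * (H θ * (θ : E N) j) := by
    funext θ
    rw [Finset.mul_sum]
    exact Finset.sum_congr rfl fun j _ => by ring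
  rw [e, av_sum _ fun j _ => (hH.mul (BM_coord j)).const_mul _]
  exact Finset.sum_congr rfl fun j _ => av_const_mul _ _

lemma av_q2 {H : Sp N → ℝ} (hH : BM H) (B : Fin N → Fin N → ℝ) :
    av (fun θ => H θ * ∑ j, ∑ k, B j k * ((θ : E N) j * (θ : E N) k)) =
      ∑ j, ∑ k, B j k * av (fun θ => H θ * ((θ : E N) j * (θ : E N) k)) := by
  have e : (fun θ : Sp N => H θ * ∑ j, ∑ k, B j k * ((θ : E N) j * (θ : E N) k)) =
      fun θ => ∑ j, ∑ k, B j k * (H θ * ((θ : E N) j * (θ : E N) k)) := by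
    funext θ
    rw [Finset.mul_sum]
    refine Finset.sum_congr rfl fun j _ => ?_
    rw [Finset.mul_sum]
    exact Finset.sum_congr rfl fun k _ => by ring
  rw [e, av_sum _ fun j _ => BM.sum _ fun k _ => (hH.mul (BM_c2 j k)).const_mul _]
  refine Finset.sum_congr rfl fun j _ => ?_
  rw [av_sum _ fun k _ => (hH.mul (BM_c2 j k)).const_mul _]
  exact Finset.sum_congr rfl fun k _ => av_const_mul _ _

end

theorem pf_PY (hMO : T_MO) : T_PY := by
  intro N F hN hF
  obtain ⟨m0, m1, m2, m3, m4⟩ := hMO N hN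
  have hN0 : (N : ℝ) ≠ 0 := by
    have : (2 : ℝ) ≤ N := by exact_mod_cast hN
    linarith
  have hN2 : (N : ℝ) + 2 ≠ 0 := by
    have : (2 : ℝ) ≤ N := by exact_mod_cast hN
    linarith
  obtain ⟨m, hm⟩ : ∃ m, m = av F := ⟨_, rfl⟩
  obtain ⟨c, hc⟩ : ∃ c, c = c1 F := ⟨_, rfl⟩
  obtain ⟨B, hB⟩ : ∃ B, B = c2 F := ⟨_, rfl⟩
  have hq1 := BM_q1 (N := N) c
  have hq2 := BM_q2 (N := N) B
  -- coefficients
  have hcj : ∀ j, av (fun θ => F θ * (θ : E N) j) = c j / N := by
    intro j
    rw [hc]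
    unfold c1
    field_simp
  have hBj : ∀ j k, av (fun θ => F θ * ((θ : E N) j * (θ : E N) k)) =
      2 / ((N : ℝ) * (N + 2)) * B j k + if j = k then m / N else 0 := by
    intro j k
    rw [hB, hm]
    unfold c2
    have : 2 / ((N : ℝ) * (N + 2)) * (N * (N + 2) / 2 *
        (av (fun θ => F θ * ((θ : E N) j * (θ : E N) k)) - if j = k then av F / N else 0)) =
        av (fun θ => F θ * ((θ : E N) j * (θ : E N) k)) - if j = k then av F / N else 0 := by
      field_simp
    rw [this]
    ring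
  have hsym : ∀ j k, B j k = B k j := by
    intro j k
    rw [hB]
    unfold c2
    have e : (fun θ : Sp N => F θ * ((θ : E N) j * (θ : E N) k)) =
        fun θ => F θ * ((θ : E N) k * (θ : E N) j) := by
      funext θ; ring
    rw [e]
    by_cases h : j = k
    · simp [h]
    · simp [h, Ne.symm h]
  have htr : ∑ j, B j j = 0 := by
    have h1 : ∑ j, av (fun θ => F θ * ((θ : E N) j * (θ : E N) j)) = m := by
      rw [← av_sum _ fun j _ => hF.mul (BM_c2 j j), hm]
      congr 1
      funext θ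
      rw [← Finset.mul_sum]
      have := sum_sq_sp θ
      simp only [sq] at this
      rw [this, mul_one]
    simp only [hBj, if_true, Finset.sum_add_distrib, Finset.sum_const, Finset.card_univ,
      Fintype.card_fin, nsmul_eq_mul, ← Finset.mul_sum] at h1
    have h2 : (N : ℝ) * (m / N) = m := by field_simp
    rw [h2] at h1
    have h3 : 2 / ((N : ℝ) * (N + 2)) * ∑ j, B j j = 0 := by linarith
    have h4 : 2 / ((N : ℝ) * (N + 2)) ≠ 0 := by positivity
    exact (mul_eq_zero.1 h3).resolve_left h4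
  -- means of the parts
  have hone : BM fun _ : Sp N => (1 : ℝ) := BM_const 1
  have a1 : av (fun θ : Sp N => ∑ j, c j * (θ : E N) j) = 0 := by
    have h := av_q1 hone c
    simp only [one_mul, m1, mul_zero, Finset.sum_const_zero] at h
    exact h
  have a2 : av (fun θ : Sp N => ∑ j, ∑ k, B j k * ((θ : E N) j * (θ : E N) k)) = 0 := by
    have h := av_q2 hone B
    simp only [one_mul, m2, mul_ite, mul_zero, Finset.sum_ite_eq, Finset.mem_univ, if_true] at h
    rw [h, ← Finset.sum_mul, htr, zero_mul]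
  have a3 : ∀ l, av (fun θ : Sp N => (θ : E N) l * ∑ j, c j * (θ : E N) j) = c l / N := by
    intro l
    rw [av_q1 (BM_coord l) c]
    simp only [m2, mul_ite, mul_zero, Finset.sum_ite_eq, Finset.mem_univ, if_true]
    ring
  have a4 : ∀ l, av (fun θ : Sp N => (θ : E N) l *
      ∑ j, ∑ k, B j k * ((θ : E N) j * (θ : E N) k)) = 0 := by
    intro l
    rw [av_q2 (BM_coord l) B]
    refine Finset.sum_eq_zero fun j _ => Finset.sum_eq_zero fun k _ => ?_
    have h := m3 l j k
    have e : (fun θ : Sp N => (θ : E N) l * ((θ : E N) j * (θ : E N) k)) =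
        fun θ : Sp N => (θ : E N) l * (θ : E N) j * (θ : E N) k := by
      funext θ; ring
    rw [e, h, mul_zero]
  have a5 : ∀ k l, av (fun θ : Sp N => ((θ : E N) k * (θ : E N) l) *
      ∑ j, c j * (θ : E N) j) = 0 := by
    intro k l
    rw [av_q1 (BM_c2 k l) c]
    refine Finset.sum_eq_zero fun j _ => ?_
    rw [m3, mul_zero]
  have a6 : ∀ l p, av (fun θ : Sp N => ((θ : E N) l * (θ : E N) p) *
      ∑ j, ∑ k, B j k * ((θ : E N) j * (θ : E N) k)) = 2 / ((N : ℝ) * (N + 2)) * B l p := by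
    intro l p
    rw [av_q2 (BM_c2 l p) B]
    have h : ∀ j k, B j k * av (fun θ : Sp N => (θ : E N) l * (θ : E N) p *
        ((θ : E N) j * (θ : E N) k)) = 1 / ((N : ℝ) * (N + 2)) *
        ((if l = p ∧ j = k then B j k else 0) + (if l = j ∧ p = k then B j k else 0) +
          (if l = k ∧ p = j then B j k else 0)) := by
      intro j k
      have e : (fun θ : Sp N => (θ : E N) l * (θ : E N) p * ((θ : E N) j * (θ : E N) k)) =
          fun θ : Sp N => (θ : E N) l * (θ : E N) p * (θ : E N) j * (θ : E N) k := by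
        funext θ; ring
      rw [e, m4 l p j k]
      split_ifs <;> ring
    simp only [h, ← Finset.mul_sum, Finset.sum_add_distrib]
    have s1 : ∑ j, ∑ k, (if l = p ∧ j = k then B j k else 0) = 0 := by
      by_cases hlp : l = p
      · simp only [hlp, true_and, Finset.sum_ite_eq, Finset.mem_univ, if_true, htr]
      · simp [hlp]
    have s2 : ∑ j, ∑ k, (if l = j ∧ p = k then B j k else 0) = B l p := by
      rw [Finset.sum_eq_single l, Finset.sum_eq_single p]
      · simp
      · intro k _ hk; simp [Ne.symm hk]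
      · simp
      · intro j _ hj; simp [Ne.symm hj]
      · simp
    have s3 : ∑ j, ∑ k, (if l = k ∧ p = j then B j k else 0) = B l p := by
      rw [Finset.sum_eq_single p, Finset.sum_eq_single l]
      · simp [hsym p l]
      · intro k _ hk; simp [Ne.symm hk]
      · simp
      · intro j _ hj; simp [Ne.symm hj]
      · simp
    rw [s1, s2, s3]
    ring
  -- the remainder
  have hr : r3 F = fun θ => F θ - m - (∑ j, c j * (θ : E N) j) -
      ∑ j, ∑ k, B j k * ((θ : E N) j * (θ : E N) k) := by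
    funext θ
    rw [hm, hc, hB]
    rfl
  have hBr : BM (r3 F) := by
    rw [hr]
    exact ((hF.sub (BM_const m)).sub hq1).sub hq2
  have hconst : ∀ a : ℝ, av (fun _ : Sp N => a) = a := by
    intro a
    have := av_const_mul a (fun _ : Sp N => (1 : ℝ))
    rw [m0] at this
    simpa using this
  have r0 : av (r3 F) = 0 := by
    rw [hr, av_sub ((hF.sub (BM_const m)).sub hq1) hq2, av_sub (hF.sub (BM_const m)) hq1,
      av_sub hF (BM_const m), a1, a2, hconst, hm]
    ring
  have gen : ∀ H : Sp N → ℝ, BM H → av (fun θ => r3 F θ * H θ) = av (fun θ => F θ * H θ) -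
      m * av H - av (fun θ => H θ * ∑ j, c j * (θ : E N) j) -
      av (fun θ => H θ * ∑ j, ∑ k, B j k * ((θ : E N) j * (θ : E N) k)) := by
    intro H hH
    have e : (fun θ => r3 F θ * H θ) = fun θ => F θ * H θ - m * H θ -
        H θ * (∑ j, c j * (θ : E N) j) -
        H θ * ∑ j, ∑ k, B j k * ((θ : E N) j * (θ : E N) k) := by
      funext θ
      rw [hr]
      ring
    rw [e, av_sub (((hF.mul hH).sub (hH.const_mul m)).sub (hH.mul hq1)) (hH.mul hq2),
      av_sub ((hF.mul hH).sub (hH.const_mul m)) (hH.mul hq1),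
      av_sub (hF.mul hH) (hH.const_mul m), av_const_mul]
  have r1 : ∀ j, av (fun θ => r3 F θ * (θ : E N) j) = 0 := by
    intro j
    rw [gen _ (BM_coord j), hcj, m1, a3, a4]
    ring
  have r2 : ∀ j k, av (fun θ => r3 F θ * ((θ : E N) j * (θ : E N) k)) = 0 := by
    intro j k
    rw [gen _ (BM_c2 j k), hBj, m2, a5, a6]
    split_ifs <;> ring
  refine ⟨?_, hBr, r0, r1, r2⟩
  -- Pythagoras
  have hFe : ∀ θ, F θ = m + (∑ j, c j * (θ : E N) j) +
      (∑ j, ∑ k, B j k * ((θ : E N) j * (θ : E N) k)) + r3 F θ := by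
    intro θ
    rw [hr]
    ring
  have e1 : av (fun θ => F θ ^ 2) = m * av F + av (fun θ => F θ * ∑ j, c j * (θ : E N) j) +
      av (fun θ => F θ * ∑ j, ∑ k, B j k * ((θ : E N) j * (θ : E N) k)) +
      av (fun θ => F θ * r3 F θ) := by
    have e : (fun θ => F θ ^ 2) = fun θ => m * F θ + F θ * (∑ j, c j * (θ : E N) j) +
        F θ * (∑ j, ∑ k, B j k * ((θ : E N) j * (θ : E N) k)) + F θ * r3 F θ := by
      funext θ
      calc F θ ^ 2 = F θ * F θ := sq _
        _ = F θ * (m + (∑ j, c j * (θ : E N) j) +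
            (∑ j, ∑ k, B j k * ((θ : E N) j * (θ : E N) k)) + r3 F θ) := by rw [← hFe]
        _ = _ := by ring
    rw [e, av_add (((hF.const_mul m).add (hF.mul hq1)).add (hF.mul hq2)) (hF.mul hBr),
      av_add ((hF.const_mul m).add (hF.mul hq1)) (hF.mul hq2),
      av_add (hF.const_mul m) (hF.mul hq1), av_const_mul]
  have e2 : av (fun θ => F θ * r3 F θ) = av (fun θ => r3 F θ ^ 2) := by
    have e : (fun θ => F θ * r3 F θ) = fun θ => m * r3 F θ +
        r3 F θ * (∑ j, c j * (θ : E N) j) +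
        r3 F θ * (∑ j, ∑ k, B j k * ((θ : E N) j * (θ : E N) k)) + r3 F θ ^ 2 := by
      funext θ
      calc F θ * r3 F θ = (m + (∑ j, c j * (θ : E N) j) +
            (∑ j, ∑ k, B j k * ((θ : E N) j * (θ : E N) k)) + r3 F θ) * r3 F θ := by
              rw [← hFe]
        _ = _ := by ring
    rw [e, av_add (((hBr.const_mul m).add (hBr.mul hq1)).add (hBr.mul hq2)) (hBr.pow 2),
      av_add ((hBr.const_mul m).add (hBr.mul hq1)) (hBr.mul hq2),
      av_add (hBr.const_mul m) (hBr.mul hq1), av_const_mul, r0, av_q1 hBr, av_q2 hBr]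
    simp only [r1, r2, mul_zero, Finset.sum_const_zero, zero_add]
  rw [e1, e2, av_q1 hF, av_q2 hF]
  simp only [hcj, hBj]
  have s1 : ∑ j, c j * (c j / N) = (∑ j, c j ^ 2) / N := by
    rw [Finset.sum_div]
    exact Finset.sum_congr rfl fun j _ => by ring
  have s2 : ∑ j, ∑ k, B j k * (2 / ((N : ℝ) * (N + 2)) * B j k + if j = k then m / N else 0) =
      2 / ((N : ℝ) * (N + 2)) * ∑ j, ∑ k, B j k ^ 2 := by
    have h : ∀ j k, B j k * (2 / ((N : ℝ) * (N + 2)) * B j k + if j = k then m / N else 0) =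
        2 / ((N : ℝ) * (N + 2)) * B j k ^ 2 + if j = k then B j k * (m / N) else 0 := by
      intro j k
      split_ifs <;> ring
    simp only [h, Finset.sum_add_distrib, Finset.sum_ite_eq, Finset.mem_univ, if_true,
      ← Finset.mul_sum, ← Finset.sum_mul, htr, zero_mul, add_zero]
  rw [s1, s2]
  unfold n0 n1 n2 n3
  rw [← hm, ← hc, ← hB]
  ring

end Pool.Agent.H36.LQ
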