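import Pool.Agent.H7.LP.Targets3

/-!
# Board lpq_modules, row REQ: the recursion
-/

set_option autoImplicit false

open Set Filter Topology

namespace Pool.Agent.H36.LQ

open Pool.Agent.H93.CP Pool.Agent.H7.LP Pool.Agent.H7.LQ

/-- Evaluation of a measurable sequence at a measurable index. -/
theorem req_eval {Ω C : Type} [MeasurableSpace Ω] [MeasurableSpace C] (f : Ω → ℕ → C)
    (n : Ω → ℕ) (hf : Measurable f) (hn : Measurable n) : Measurable fun ω => f ω (n ω) := by
  intro S hS
  have e : (fun ω => f ω (n ω)) ⁻¹' S =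
      ⋃ m : ℕ, (n ⁻¹' {m}) ∩ ((fun ω => f ω m) ⁻¹' S) := by
    ext ω
    constructor
    · intro h
      exact Set.mem_iUnion.2 ⟨n ω, rfl, h⟩
    · intro h
      obtain ⟨m, h1, h2⟩ := Set.mem_iUnion.1 h
      have h3 : n ω = m := h1
      change f ω (n ω) ∈ S
      rw [h3]
      exact h2
  rw [e]
  exact MeasurableSet.iUnion fun m => (hn (measurableSet_singleton m)).inter
    (((measurable_pi_apply m).comp hf) hS)

/-- **Row REQ.** -/
theorem pf_REQ (h1 : T_RCT) : T_REQ := by
  intro G _ _ _ _ _ _ B L sel hsel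
  obtain ⟨F, hF1, hF2, hF3⟩ := h1 St2 (ℕ × G) (0, 1)
    (fun _ n q => (n.unpair.1, sel (q.1.2 n.unpair.1 q.2.1).2 n.unpair.2 * q.2.2))
    (fun s n => {q | (q.1.2 n.unpair.1 q.2.1).1 = true ∧ (q.1.2 n.unpair.1 s).1 = true ∧
      ∀ r ∈ L.R (q.1.1 n.unpair.1).1,
        (sel (q.1.2 n.unpair.1 q.2.1).2 n.unpair.2 * q.2.2)⁻¹ * r *
          (sel (q.1.2 n.unpair.1 q.2.1).2 n.unpair.2 * q.2.2) ∈ L.R s})
    (by
      intro s n
      have m1 : Measurable fun q : St2 × ℕ × G => q.1.2 n.unpair.1 q.2.1 :=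
        req_eval (fun q : St2 × ℕ × G => q.1.2 n.unpair.1) (fun q => q.2.1)
          ((measurable_pi_apply _).comp (measurable_snd.comp measurable_fst))
          (measurable_fst.comp measurable_snd)
      have m2 : Measurable fun q : St2 × ℕ × G => sel (q.1.2 n.unpair.1 q.2.1).2 n.unpair.2 :=
        (hsel.meas _).comp (measurable_snd.comp m1)
      exact measurable_const.prodMk (m2.mul (measurable_snd.comp measurable_snd)))
    (by
      intro s n
      have m1 : Measurable fun q : St2 × ℕ × G => q.1.2 n.unpair.1 q.2.1 :=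
        req_eval (fun q : St2 × ℕ × G => q.1.2 n.unpair.1) (fun q => q.2.1)
          ((measurable_pi_apply _).comp (measurable_snd.comp measurable_fst))
          (measurable_fst.comp measurable_snd)
      have m2 : Measurable fun q : St2 × ℕ × G => sel (q.1.2 n.unpair.1 q.2.1).2 n.unpair.2 :=
        (hsel.meas _).comp (measurable_snd.comp m1)
      have m3 : Measurable fun q : St2 × ℕ × G =>
          sel (q.1.2 n.unpair.1 q.2.1).2 n.unpair.2 * q.2.2 :=
        m2.mul (measurable_snd.comp measurable_snd)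
      have m4 : Measurable fun q : St2 × ℕ × G => q.1.2 n.unpair.1 s :=
        (measurable_pi_apply s).comp
          ((measurable_pi_apply _).comp (measurable_snd.comp measurable_fst))
      have m5 : Measurable fun q : St2 × ℕ × G => (q.1.1 n.unpair.1).1 :=
        measurable_fst.comp ((measurable_pi_apply _).comp (measurable_fst.comp measurable_fst))
      refine MeasurableSet.inter ?_ (MeasurableSet.inter ?_ ?_)
      · exact (measurable_fst.comp m1) (measurableSet_singleton true)
      · exact (measurable_fst.comp m4) (measurableSet_singleton true)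
      · have e : {q : St2 × ℕ × G | ∀ r ∈ L.R (q.1.1 n.unpair.1).1,
            (sel (q.1.2 n.unpair.1 q.2.1).2 n.unpair.2 * q.2.2)⁻¹ * r *
              (sel (q.1.2 n.unpair.1 q.2.1).2 n.unpair.2 * q.2.2) ∈ L.R s} =
            ⋃ k : ℕ, ((fun q : St2 × ℕ × G => (q.1.1 n.unpair.1).1) ⁻¹' {k}) ∩
              ((fun q : St2 × ℕ × G => sel (q.1.2 n.unpair.1 q.2.1).2 n.unpair.2 * q.2.2) ⁻¹'
                {b : G | ∀ r ∈ L.R k, b⁻¹ * r * b ∈ L.R s}) := by
          ext q
          constructor
          · intro h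
            exact Set.mem_iUnion.2 ⟨_, rfl, h⟩
          · intro h
            obtain ⟨k, h2, h3⟩ := Set.mem_iUnion.1 h
            have h4 : (q.1.1 n.unpair.1).1 = k := h2
            intro r hr
            rw [h4] at hr
            exact h3 r hr
        change MeasurableSet {q : St2 × ℕ × G | ∀ r ∈ L.R (q.1.1 n.unpair.1).1,
            (sel (q.1.2 n.unpair.1 q.2.1).2 n.unpair.2 * q.2.2)⁻¹ * r *
              (sel (q.1.2 n.unpair.1 q.2.1).2 n.unpair.2 * q.2.2) ∈ L.R s}
        rw [e]
        refine MeasurableSet.iUnion fun k => (m5 (measurableSet_singleton k)).inter (m3 ?_)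
        have hc : IsClosed {b : G | ∀ r ∈ L.R k, b⁻¹ * r * b ∈ L.R s} := by
          have e2 : {b : G | ∀ r ∈ L.R k, b⁻¹ * r * b ∈ L.R s} =
              ⋂ r : L.R k, (fun b : G => b⁻¹ * r * b) ⁻¹' (L.R s : Set G) := by
            ext b
            rw [Set.mem_iInter]
            exact ⟨fun h r => h r r.2, fun h r hr => h ⟨r, hr⟩⟩
          rw [e2]
          refine isClosed_iInter fun r => (L.piece s).cl.preimage ?_
          fun_prop
        exact hc.measurableSet)
  refine ⟨F, hF1, hF2, ?_⟩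
  rintro w s ⟨i', b', hst⟩
  obtain ⟨n', hn'⟩ := hst.quo
  obtain ⟨n, hn, hn2⟩ := hF3 w s ⟨Nat.pair i' n', by
    refine ⟨?_, ?_, ?_⟩
    · rw [Nat.unpair_pair]
      exact hst.le
    · rw [Nat.unpair_pair]
      exact hst.cof
    · rw [Nat.unpair_pair]
      have h2 := hst.sml
      rw [hn'] at h2
      exact h2⟩
  rw [hn2]
  exact ⟨hn.1, ⟨n.unpair.2, rfl⟩, hn.2.1, hn.2.2⟩

end Pool.Agent.H36.LQ
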